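import Mathlib

set_option autoImplicit false
open MeasureTheory Set

namespace Pool.Agent.R756.Flot

/-- The right triangle with legs `p`, `q` at the origin. -/
def Tri (p q : ℝ) : Set (ℝ × ℝ) := {z | 0 ≤ z.1 ∧ 0 ≤ z.2 ∧ q * z.1 + p * z.2 ≤ p * q}

lemma tri_closed (p q : ℝ) : IsClosed (Tri p q) := by
  have h1 : IsClosed {z : ℝ × ℝ | 0 ≤ z.1} := isClosed_le continuous_const continuous_fst
  have h2 : IsClosed {z : ℝ × ℝ | 0 ≤ z.2} := isClosed_le continuous_const continuous_snd
  have h3 : IsClosed {z : ℝ × ℝ | q * z.1 + p * z.2 ≤ p * q} :=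
    isClosed_le (by fun_prop) continuous_const
  exact h1.inter (h2.inter h3)

lemma tri_subset {p q : ℝ} (hp : 0 < p) (hq : 0 < q) : Tri p q ⊆ Icc 0 p ×ˢ Icc 0 q := by
  rintro ⟨x, y⟩ ⟨h1, h2, h3⟩
  simp only at h1 h2 h3
  refine ⟨⟨h1, ?_⟩, ⟨h2, ?_⟩⟩
  · have : q * x ≤ q * p := by nlinarith
    exact le_of_mul_le_mul_left this hq
  · have : p * y ≤ p * q := by nlinarith
    exact le_of_mul_le_mul_left this hp

lemma tri_compact {p q : ℝ} (hp : 0 < p) (hq : 0 < q) : IsCompact (Tri p q) :=
  (isCompact_Icc.prod isCompact_Icc).of_isClosed_subset (tri_closed p q) (tri_subset hp hq)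

lemma tri_integral {p q : ℝ} (hp : 0 < p) (hq : 0 < q) (f : ℝ × ℝ → ℝ) (hf : Continuous f) :
    ∫ z in Tri p q, f z = ∫ x in (0:ℝ)..p, ∫ y in (0:ℝ)..(q - q * x / p), f (x, y) := by
  have hint : Integrable ((Tri p q).indicator f) (volume.prod volume) := by
    rw [← Measure.volume_eq_prod, integrable_indicator_iff (tri_closed p q).measurableSet]
    exact hf.continuousOn.integrableOn_compact (tri_compact hp hq)
  rw [← integral_indicator (tri_closed p q).measurableSet, Measure.volume_eq_prod,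
    integral_prod _ hint, intervalIntegral.integral_of_le hp.le, ← integral_Icc_eq_integral_Ioc,
    ← integral_indicator measurableSet_Icc]
  congr 1
  ext x
  by_cases hx : x ∈ Icc 0 p
  · rw [indicator_of_mem hx]
    have h1 : 0 ≤ q - q * x / p := by
      rw [sub_nonneg, div_le_iff₀ hp]
      exact mul_le_mul_of_nonneg_left hx.2 hq.le
    rw [intervalIntegral.integral_of_le h1, ← integral_Icc_eq_integral_Ioc,
      ← integral_indicator measurableSet_Icc]
    congr 1
    ext y
    by_cases hy : y ∈ Icc 0 (q - q * x / p)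
    · rw [indicator_of_mem hy, indicator_of_mem]
      refine ⟨hx.1, hy.1, ?_⟩
      have := hy.2
      have h2 : p * y ≤ p * (q - q * x / p) := mul_le_mul_of_nonneg_left this hp.le
      have h3 : p * (q - q * x / p) = p * q - q * x := by field_simp
      simp only
      linarith
    · rw [indicator_of_notMem hy, indicator_of_notMem]
      rintro ⟨_, h4, h5⟩
      apply hy
      refine ⟨h4, ?_⟩
      simp only at h5
      have h3 : p * (q - q * x / p) = p * q - q * x := by field_simp
      have h6 : p * y ≤ p * (q - q * x / p) := by rw [h3]; linarith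
      exact le_of_mul_le_mul_left h6 hp
  · rw [indicator_of_notMem hx]
    have : ∀ y, (Tri p q).indicator f (x, y) = 0 := by
      intro y
      rw [indicator_of_notMem]
      intro h
      exact hx (tri_subset hp hq h).1
    simp [this]

lemma tri_one {p q : ℝ} (hp : 0 < p) (hq : 0 < q) : ∫ _z in Tri p q, (1:ℝ) = p * q / 2 := by
  rw [tri_integral hp hq _ continuous_const]
  simp only [intervalIntegral.integral_const, smul_eq_mul, mul_one, sub_zero]
  have h : (fun x : ℝ => q - q * x / p) = fun x : ℝ => q - (q / p) * x := by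
    ext x; ring
  rw [h, intervalIntegral.integral_sub (by simp) (by simpa using (by fun_prop : Continuous fun x : ℝ => (q / p) * x).intervalIntegrable 0 p),
    intervalIntegral.integral_const_mul, integral_id]
  simp
  field_simp
  ring

lemma tri_fst {p q : ℝ} (hp : 0 < p) (hq : 0 < q) : ∫ z in Tri p q, z.1 = p ^ 2 * q / 6 := by
  rw [tri_integral hp hq _ continuous_fst]
  simp only [intervalIntegral.integral_const, smul_eq_mul, sub_zero]
  have h : (fun x : ℝ => (q - q * x / p) * x) = fun x : ℝ => q * x - (q / p) * x ^ 2 := by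
    ext x; ring
  rw [h, intervalIntegral.integral_sub ((by fun_prop : Continuous fun x : ℝ => q * x).intervalIntegrable 0 p)
    ((by fun_prop : Continuous fun x : ℝ => (q / p) * x ^ 2).intervalIntegrable 0 p),
    intervalIntegral.integral_const_mul, intervalIntegral.integral_const_mul, integral_id, integral_pow]
  norm_num
  field_simp
  ring

lemma tri_snd {p q : ℝ} (hp : 0 < p) (hq : 0 < q) : ∫ z in Tri p q, z.2 = p * q ^ 2 / 6 := by
  rw [tri_integral hp hq _ continuous_snd]
  simp only [integral_id]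
  have h : (fun x : ℝ => ((q - q * x / p) ^ 2 - 0 ^ 2) / 2) =
      fun x : ℝ => (q ^ 2 / 2 - (q ^ 2 / p) * x) + (q ^ 2 / (2 * p ^ 2)) * x ^ 2 := by
    ext x; field_simp; ring
  rw [h, intervalIntegral.integral_add ((by fun_prop : Continuous fun x : ℝ => q ^ 2 / 2 - (q ^ 2 / p) * x).intervalIntegrable 0 p)
    ((by fun_prop : Continuous fun x : ℝ => (q ^ 2 / (2 * p ^ 2)) * x ^ 2).intervalIntegrable 0 p),
    intervalIntegral.integral_sub (by simp) (by simpa using (by fun_prop : Continuous fun x : ℝ => (q ^ 2 / p) * x).intervalIntegrable 0 p),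
    intervalIntegral.integral_const_mul, intervalIntegral.integral_const_mul, integral_id, integral_pow]
  simp
  field_simp
  ring

lemma line_null : volume {z : ℝ × ℝ | z.1 + z.2 = 1} = 0 := by
  rw [Measure.volume_eq_prod, Measure.measure_prod_null]
  · refine Filter.Eventually.of_forall fun x => ?_
    have : (Prod.mk x ⁻¹' {z : ℝ × ℝ | z.1 + z.2 = 1}) = {1 - x} := by
      ext y
      simp only [mem_preimage, mem_ofPred_eq, mem_singleton_iff]
      constructor <;> intro h <;> linarith
    show volume (Prod.mk x ⁻¹' {z : ℝ × ℝ | z.1 + z.2 = 1}) = 0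
    rw [this]
    simp
  · exact (isClosed_eq (by fun_prop) continuous_const).measurableSet

/-- The cap region. -/
def Cap (d T : ℝ) : Set (ℝ × ℝ) :=
  {z | 0 ≤ z.1 ∧ 0 ≤ z.2 ∧ 1 ≤ z.1 + z.2 ∧ d * z.1 + T * z.2 ≤ 2}

lemma cap_ae {d T : ℝ} (h : d * T = 2) :
    Cap d T =ᵐ[volume] (Tri T d \ Tri 1 1 : Set (ℝ × ℝ)) := by
  have h1 : Cap d T \ {z : ℝ × ℝ | z.1 + z.2 = 1} = (Tri T d \ Tri 1 1 : Set (ℝ × ℝ)) := by
    ext ⟨x, y⟩
    simp only [Cap, Tri, mem_sdiff, mem_ofPred_eq]
    constructor
    · rintro ⟨⟨h1, h2, h3, h4⟩, h5⟩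
      refine ⟨⟨h1, h2, by nlinarith⟩, ?_⟩
      rintro ⟨_, _, h6⟩
      apply h5
      linarith
    · rintro ⟨⟨h1, h2, h3⟩, h4⟩
      have h5 : 1 < x + y := by
        by_contra hc
        exact h4 ⟨h1, h2, by linarith⟩
      exact ⟨⟨h1, h2, h5.le, by nlinarith⟩, h5.ne'⟩
  rw [← h1]
  exact (sdiff_null_ae_eq_self line_null).symm

lemma cap_integral {d T : ℝ} (hT : 1 ≤ T) (hd : 1 ≤ d) (h : d * T = 2) (f : ℝ × ℝ → ℝ)
    (hf : Continuous f) :
    ∫ z in Cap d T, f z = (∫ z in Tri T d, f z) - ∫ z in Tri 1 1, f z := by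
  rw [setIntegral_congr_set (cap_ae h), setIntegral_sdiff (tri_closed 1 1).measurableSet
    (hf.continuousOn.integrableOn_compact (tri_compact (by linarith) (by linarith)))]
  rintro ⟨x, y⟩ ⟨h1, h2, h3⟩
  simp only at h1 h2 h3
  refine ⟨h1, h2, ?_⟩
  simp only
  -- `d x + T y ≤ 2 = T d` follows from `x + y ≤ 1` and `d, T ≤ 2`
  have hd2 : d ≤ 2 := by nlinarith
  have hT2 : T ≤ 2 := by nlinarith
  nlinarith

end Pool.Agent.R756.Flot
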