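import Mathlib
import Pool.Agent.R756.Flot.Tri

set_option autoImplicit false
open MeasureTheory Set
open scoped RealInnerProductSpace

namespace Pool.Agent.R756.Flot

/-- Euclidean space `ℝⁿ`. -/
abbrev E (n : ℕ) : Type := EuclideanSpace ℝ (Fin n)

/-- The closed half-space `{x : ⟨u, x⟩ ≥ t}`. -/
def halfSpace {n : ℕ} (u : E n) (t : ℝ) : Set (E n) := {x | t ≤ ⟪u, x⟫}

/-- The centroid of a set of positive finite volume. -/
noncomputable def centroid {n : ℕ} (A : Set (E n)) : E n := (volume A).toReal⁻¹ • ∫ x in A, x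

/-- The hexagon with vertices `±(1,0)`, `±(0,1)`, `±(1,-1)`. -/
def hex : Set (E 2) := {x | |x 0| ≤ 1 ∧ |x 1| ≤ 1 ∧ |x 0 + x 1| ≤ 1}

lemma inner2 (u x : E 2) : ⟪u, x⟫ = u 0 * x 0 + u 1 * x 1 := by
  simp [PiLp.inner_apply, Fin.sum_univ_two]
  ring

lemma ext2 {x y : E 2} (h0 : x 0 = y 0) (h1 : x 1 = y 1) : x = y := by
  ext i
  fin_cases i
  · exact h0
  · exact h1

/-- coordinates -/
noncomputable def cd : E 2 ≃ᵐ ℝ × ℝ :=
  (MeasurableEquiv.toLp 2 (Fin 2 → ℝ)).symm.trans MeasurableEquiv.finTwoArrow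

lemma cd_apply (x : E 2) : cd x = (x 0, x 1) := rfl

lemma cd_mp : MeasurePreserving cd volume volume :=
  (volume_preserving_finTwoArrow ℝ).comp
    (EuclideanSpace.volume_preserving_symm_measurableEquiv_toLp (Fin 2))

/-- reflected coordinates -/
noncomputable def rc : E 2 ≃ᵐ ℝ × ℝ :=
  cd.trans ((MeasurableEquiv.subLeft (1:ℝ)).prodCongr (MeasurableEquiv.subLeft (1:ℝ)))

lemma rc_apply (x : E 2) : rc x = (1 - x 0, 1 - x 1) := rfl

lemma rc_mp : MeasurePreserving rc volume volume := by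
  have h1 : MeasurePreserving (fun z : ℝ × ℝ => (1 - z.1, 1 - z.2)) volume volume :=
    (Measure.measurePreserving_sub_left volume (1:ℝ)).prod (Measure.measurePreserving_sub_left volume (1:ℝ))
  exact h1.comp cd_mp

/-- the linear map of order six -/
noncomputable def g (x : E 2) : E 2 := !₂[-x 1, x 0 + x 1]

/-- its action on normals -/
noncomputable def gd (u : E 2) : E 2 := !₂[u 0 - u 1, u 0]

@[simp] lemma g0 (x : E 2) : g x 0 = -x 1 := rfl
@[simp] lemma g1 (x : E 2) : g x 1 = x 0 + x 1 := rfl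
@[simp] lemma gd0 (x : E 2) : gd x 0 = x 0 - x 1 := rfl
@[simp] lemma gd1 (x : E 2) : gd x 1 = x 0 := rfl

lemma inner_gd (u x : E 2) : ⟪gd u, g x⟫ = ⟪u, x⟫ := by
  rw [inner2, inner2]
  simp
  ring

lemma g_mp : MeasurePreserving g volume volume := by
  have h1 : MeasurePreserving (fun z : ℝ × ℝ => (z.2, z.2 + z.1)) volume volume :=
    measurePreserving_prod_add_swap volume volume
  have h2 : MeasurePreserving (fun z : ℝ × ℝ => (-z.1, z.2)) volume volume :=
    (Measure.measurePreserving_neg volume).prod (MeasurePreserving.id volume)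
  have h3 : MeasurePreserving (cd.symm ∘ (fun z : ℝ × ℝ => (-z.1, z.2)) ∘
      (fun z : ℝ × ℝ => (z.2, z.2 + z.1)) ∘ cd) volume volume :=
    (cd_mp.symm cd).comp (h2.comp (h1.comp cd_mp))
  have h4 : (cd.symm ∘ (fun z : ℝ × ℝ => (-z.1, z.2)) ∘
      (fun z : ℝ × ℝ => (z.2, z.2 + z.1)) ∘ cd) = g := by
    ext x : 1
    show cd.symm _ = g x
    rw [MeasurableEquiv.symm_apply_eq]
    simp only [Function.comp, cd_apply, g0, g1]
    rw [add_comm]
  rwa [h4] at h3

/-- `g` as a continuous linear equivalence -/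
noncomputable def gl : E 2 →ₗ[ℝ] E 2 where
  toFun := g
  map_add' x y := by
    apply ext2 <;> simp <;> ring
  map_smul' c x := by
    apply ext2 <;> simp <;> ring

lemma gl_apply (x : E 2) : gl x = g x := rfl

noncomputable def gi (x : E 2) : E 2 := !₂[x 0 + x 1, -x 0]

lemma gi_g (x : E 2) : gi (g x) = x := by
  apply ext2 <;> simp [gi]

lemma g_gi (x : E 2) : g (gi x) = x := by
  apply ext2 <;> simp [gi]

noncomputable def ge : E 2 ≃L[ℝ] E 2 :=
  (LinearEquiv.ofLinearMap gl
    { toFun := gi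
      map_add' := fun x y => by apply ext2 <;> simp [gi] <;> ring
      map_smul' := fun c x => by apply ext2 <;> simp [gi] <;> ring }
    (by ext1 x; exact g_gi x) (by ext1 x; exact gi_g x)).toContinuousLinearEquiv

lemma ge_apply (x : E 2) : ge x = g x := rfl

lemma g_hex (x : E 2) : g x ∈ hex ↔ x ∈ hex := by
  simp only [hex, mem_ofPred_eq, g0, g1]
  have h1 : -x 1 + (x 0 + x 1) = x 0 := by ring
  rw [h1, abs_neg]
  tauto

lemma g_iter6 (x : E 2) : g^[6] x = x := by
  apply ext2 <;> simp [Function.iterate_succ]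

lemma g_cont : Continuous g := ge.continuous

lemma hex_closed : IsClosed hex := by
  have h1 : IsClosed {x : E 2 | |x 0| ≤ 1} := isClosed_le (by fun_prop) continuous_const
  have h2 : IsClosed {x : E 2 | |x 1| ≤ 1} := isClosed_le (by fun_prop) continuous_const
  have h3 : IsClosed {x : E 2 | |x 0 + x 1| ≤ 1} := isClosed_le (by fun_prop) continuous_const
  exact h1.inter (h2.inter h3)

lemma hex_compact : IsCompact hex := by
  refine Metric.isCompact_of_isClosed_isBounded hex_closed ?_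
  refine (Metric.isBounded_iff_subset_closedBall 0).2 ⟨2, ?_⟩
  intro x hx
  rw [mem_closedBall_zero_iff]
  have h : ‖x‖ ^ 2 ≤ 2 ^ 2 := by
    rw [EuclideanSpace.norm_sq_eq, Fin.sum_univ_two]
    simp only [Real.norm_eq_abs, sq_abs]
    have h1 := abs_le.1 hx.1
    have h2 := abs_le.1 hx.2.1
    nlinarith
  exact le_of_sq_le_sq h (by norm_num)

lemma hex_convex : Convex ℝ hex := by
  intro x hx y hy a b ha hb hab
  simp only [hex, mem_ofPred_eq, abs_le] at *
  simp only [PiLp.add_apply, PiLp.smul_apply, smul_eq_mul]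
  obtain ⟨⟨h1, h2⟩, ⟨h3, h4⟩, ⟨h5, h6⟩⟩ := hx
  obtain ⟨⟨k1, k2⟩, ⟨k3, k4⟩, ⟨k5, k6⟩⟩ := hy
  have hb' : b = 1 - a := by linarith
  subst hb'
  refine ⟨⟨?_, ?_⟩, ⟨?_, ?_⟩, ⟨?_, ?_⟩⟩ <;> nlinarith

lemma hex_interior : (interior hex).Nonempty := by
  refine ⟨0, mem_interior.2 ⟨{x : E 2 | |x 0| < 1} ∩ ({x : E 2 | |x 1| < 1} ∩
    {x : E 2 | |x 0 + x 1| < 1}), ?_, ?_, ?_⟩⟩
  · rintro x ⟨h1, h2, h3⟩
    exact ⟨le_of_lt h1, le_of_lt h2, le_of_lt h3⟩
  · refine IsOpen.inter (isOpen_lt (by fun_prop) continuous_const)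
      ((isOpen_lt (by fun_prop) continuous_const).inter (isOpen_lt (by fun_prop) continuous_const))
  · simp

/-- The midpoint of the chord with parameter `d`. -/
noncomputable def mid (d : ℝ) : E 2 := !₂[1 - 1 / d, 1 - d / 2]

@[simp] lemma mid0 (d : ℝ) : mid d 0 = 1 - 1 / d := rfl
@[simp] lemma mid1 (d : ℝ) : mid d 1 = 1 - d / 2 := rfl

lemma mid_hex {d : ℝ} (h1 : 1 ≤ d) (h2 : d ≤ 2) : mid d ∈ hex := by
  have h3 : 0 < d := by linarith
  have h4 : 1 / d ≤ 1 := by rw [div_le_one h3]; exact h1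
  have h5 : 1 / 2 ≤ 1 / d := one_div_le_one_div_of_le h3 h2
  simp only [hex, mem_ofPred_eq, mid0, mid1, abs_le]
  refine ⟨⟨by linarith, by linarith⟩, ⟨by linarith, by linarith⟩, ⟨by linarith, ?_⟩⟩
  have h6 : 1 / d + d / 2 ≥ 1 := by
    have : 1 / d + d / 2 - 1 = ((d - 1) ^ 2 + 1) / (2 * d) := by field_simp; ring
    have h7 : 0 ≤ ((d - 1) ^ 2 + 1) / (2 * d) := by positivity
    linarith
  linarith

/-- the cap of the hexagon as a preimage -/
lemma hex_cap {d T : ℝ} (hT1 : 1 ≤ T) (hd1 : 1 ≤ d) (h : d * T = 2) :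
    hex ∩ halfSpace (!₂[d, T] : E 2) (d + T - 2) = rc ⁻¹' (Cap d T) := by
  have hd2 : d ≤ 2 := by nlinarith
  have hT2 : T ≤ 2 := by nlinarith
  ext x
  simp only [hex, halfSpace, mem_inter_iff, mem_ofPred_eq, mem_preimage, rc_apply, Cap, abs_le,
    inner2]
  show _ ∧ d + T - 2 ≤ d * x 0 + T * x 1 ↔ _
  constructor
  · rintro ⟨⟨⟨h1, h2⟩, ⟨h3, h4⟩, ⟨h5, h6⟩⟩, h7⟩
    exact ⟨by linarith, by linarith, by linarith, by nlinarith⟩
  · rintro ⟨h1, h2, h3, h4⟩
    have h5 : d * (1 - x 0) ≤ d * T := by nlinarith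
    have h6 : 1 - x 0 ≤ T := le_of_mul_le_mul_left h5 (by linarith)
    have h7 : T * (1 - x 1) ≤ T * d := by nlinarith
    have h8 : 1 - x 1 ≤ d := le_of_mul_le_mul_left h7 (by linarith)
    refine ⟨⟨⟨by linarith, by linarith⟩, ⟨by linarith, by linarith⟩, ⟨?_, by linarith⟩⟩, by nlinarith⟩
    nlinarith

lemma hex_cap_vol {d T : ℝ} (hT1 : 1 ≤ T) (hd1 : 1 ≤ d) (h : d * T = 2) :
    (volume (hex ∩ halfSpace (!₂[d, T] : E 2) (d + T - 2))).toReal = 1 / 2 := by
  rw [hex_cap hT1 hd1 h, rc_mp.measure_preimage_equiv]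
  have h1 := cap_integral hT1 hd1 h (fun _ => (1:ℝ)) continuous_const
  rw [tri_one (by linarith) (by linarith), tri_one (by norm_num) (by norm_num)] at h1
  rw [setIntegral_const, smul_eq_mul, mul_one] at h1
  have h2 : (volume (Cap d T)).toReal = volume.real (Cap d T) := rfl
  rw [h2, h1]
  linarith

lemma proj_integral {A : Set (E 2)} (hA : IntegrableOn (fun x : E 2 => x) A) (i : Fin 2) :
    (∫ x in A, x) i = ∫ x in A, x i := by
  have := (EuclideanSpace.proj (𝕜 := ℝ) i : E 2 →L[ℝ] ℝ).integral_comp_comm hA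
  exact this.symm

lemma integrableOn_id {A : Set (E 2)} (hA : A ⊆ hex) : IntegrableOn (fun x : E 2 => x) A :=
  (continuous_id.continuousOn.integrableOn_compact hex_compact).mono_set hA

lemma hex_cap_moment {d T : ℝ} (hT1 : 1 ≤ T) (hd1 : 1 ≤ d) (h : d * T = 2) :
    centroid (hex ∩ halfSpace (!₂[d, T] : E 2) (d + T - 2)) = (4 / 3 : ℝ) • mid d := by
  have hd0 : 0 < d := by linarith
  have hT : T = 2 / d := by field_simp; linarith
  rw [centroid, hex_cap_vol hT1 hd1 h]
  have hint := integrableOn_id (inter_subset_left (s := hex) (t := halfSpace (!₂[d, T] : E 2) (d + T - 2)))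
  have key : ∀ f : ℝ × ℝ → ℝ, Continuous f →
      ∫ x in hex ∩ halfSpace (!₂[d, T] : E 2) (d + T - 2), f (rc x) =
        (∫ z in Tri T d, f z) - ∫ z in Tri 1 1, f z := by
    intro f hf
    rw [hex_cap hT1 hd1 h, rc_mp.setIntegral_preimage_emb rc.measurableEmbedding,
      cap_integral hT1 hd1 h f hf]
  apply ext2
  · simp only [PiLp.smul_apply, smul_eq_mul, mid0]
    rw [proj_integral hint 0]
    have h1 := key (fun z => 1 - z.1) (by fun_prop)
    simp only [rc_apply, sub_sub_cancel] at h1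
    rw [h1, integral_sub, integral_sub, tri_one (by linarith) (by linarith),
      tri_one (by norm_num) (by norm_num), tri_fst (by linarith) (by linarith),
      tri_fst (by norm_num) (by norm_num), hT]
    · field_simp; ring
    · exact continuousOn_const.integrableOn_compact (tri_compact (by norm_num) (by norm_num))
    · exact continuous_fst.continuousOn.integrableOn_compact (tri_compact (by norm_num) (by norm_num))
    · exact continuousOn_const.integrableOn_compact (tri_compact (by linarith) (by linarith))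
    · exact continuous_fst.continuousOn.integrableOn_compact (tri_compact (by linarith) (by linarith))
  · simp only [PiLp.smul_apply, smul_eq_mul, mid1]
    rw [proj_integral hint 1]
    have h1 := key (fun z => 1 - z.2) (by fun_prop)
    simp only [rc_apply, sub_sub_cancel] at h1
    rw [h1, integral_sub, integral_sub, tri_one (by linarith) (by linarith),
      tri_one (by norm_num) (by norm_num), tri_snd (by linarith) (by linarith),
      tri_snd (by norm_num) (by norm_num), hT]
    · field_simp; ring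
    · exact continuousOn_const.integrableOn_compact (tri_compact (by norm_num) (by norm_num))
    · exact continuous_snd.continuousOn.integrableOn_compact (tri_compact (by norm_num) (by norm_num))
    · exact continuousOn_const.integrableOn_compact (tri_compact (by linarith) (by linarith))
    · exact continuous_snd.continuousOn.integrableOn_compact (tri_compact (by linarith) (by linarith))

end Pool.Agent.R756.Flot
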