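import Mathlib
import Pool.Agent.R756.Flot.Base
import Pool.Agent.H73R3.Hull

set_option autoImplicit false
open MeasureTheory Set
open scoped RealInnerProductSpace

namespace Pool.Agent.R756.Flot

/-- `u` is a normal whose admissible cap has its water line through `m` and centroid `4m/3`. -/
def R (u m : E 2) : Prop := u ≠ 0 ∧ (volume (hex ∩ halfSpace u ⟪u, m⟫)).toReal = 1 / 2 ∧
  centroid (hex ∩ halfSpace u ⟪u, m⟫) = (4 / 3 : ℝ) • m

lemma preim (u : E 2) (t : ℝ) : g ⁻¹' (hex ∩ halfSpace (gd u) t) = hex ∩ halfSpace u t := by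
  ext x
  simp only [mem_preimage, mem_inter_iff, g_hex, halfSpace, mem_ofPred_eq, inner_gd]

lemma gd_ne {u : E 2} (hu : u ≠ 0) : gd u ≠ 0 := by
  intro h
  apply hu
  have h0 : gd u 0 = 0 := by rw [h]; rfl
  have h1 : gd u 1 = 0 := by rw [h]; rfl
  simp only [gd0, gd1] at h0 h1
  apply ext2
  · simpa using h1
  · simp only [PiLp.zero_apply]; linarith

lemma R_g {u m : E 2} (h : R u m) : R (gd u) (g m) := by
  obtain ⟨h1, h2, h3⟩ := h
  have hemb : MeasurableEmbedding g := ge.toHomeomorph.measurableEmbedding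
  have hv : volume (hex ∩ halfSpace (gd u) ⟪u, m⟫) = volume (hex ∩ halfSpace u ⟪u, m⟫) := by
    rw [← g_mp.measure_preimage_emb hemb, preim]
  refine ⟨gd_ne h1, ?_, ?_⟩
  · rw [inner_gd, hv]; exact h2
  · rw [inner_gd]
    unfold centroid at h3 ⊢
    rw [hv]
    have hi : ∫ y in hex ∩ halfSpace (gd u) ⟪u, m⟫, y = g (∫ x in hex ∩ halfSpace u ⟪u, m⟫, x) := by
      have h4 := g_mp.setIntegral_preimage_emb hemb (fun y : E 2 => y)
        (hex ∩ halfSpace (gd u) ⟪u, m⟫)
      rw [preim] at h4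
      rw [← h4]
      exact (ge : E 2 →L[ℝ] E 2).integral_comp_comm (integrableOn_id inter_subset_left)
    rw [hi]
    have h5 : ∀ (c : ℝ) (x : E 2), c • g x = g (c • x) := fun c x => (gl.map_smul c x).symm
    rw [h5, h3, h5]

lemma R_smul {u m : E 2} {c : ℝ} (hc : 0 < c) (h : R u m) : R (c • u) m := by
  obtain ⟨h1, h2, h3⟩ := h
  have he : halfSpace (c • u) ⟪c • u, m⟫ = halfSpace u ⟪u, m⟫ := by
    ext x
    simp only [halfSpace, mem_ofPred_eq, inner_smul_left]
    exact mul_le_mul_iff_right₀ (by simpa using hc)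
  refine ⟨smul_ne_zero hc.ne' h1, ?_, ?_⟩
  · rw [he]; exact h2
  · rw [he]; exact h3

lemma R_base {d : ℝ} (h1 : 1 ≤ d) (h2 : d ≤ 2) : R (!₂[d, 2 / d] : E 2) (mid d) := by
  have hd0 : 0 < d := by linarith
  have hT : d * (2 / d) = 2 := by field_simp
  have hT1 : 1 ≤ 2 / d := by rw [le_div_iff₀ hd0]; linarith
  have hi : ⟪(!₂[d, 2 / d] : E 2), mid d⟫ = d + 2 / d - 2 := by
    rw [inner2]
    show d * mid d 0 + 2 / d * mid d 1 = _
    rw [mid0, mid1]
    field_simp
    ring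
  refine ⟨?_, ?_, ?_⟩
  · intro h
    have : (!₂[d, 2 / d] : E 2) 0 = 0 := by rw [h]; rfl
    have h5 : d = 0 := this
    linarith
  · rw [hi]; exact hex_cap_vol hT1 h1 hT
  · rw [hi]; exact hex_cap_moment hT1 h1 hT

/-- The curve of midpoints. -/
def M : Set (E 2) := {m | ∃ (k : ℕ) (d : ℝ), 1 ≤ d ∧ d ≤ 2 ∧ m = g^[k] (mid d)}

lemma M_g {m : E 2} (h : m ∈ M) : g m ∈ M := by
  obtain ⟨k, d, h1, h2, rfl⟩ := h
  exact ⟨k + 1, d, h1, h2, by rw [Function.iterate_succ_apply']⟩

lemma M_eq : M = ⋃ k ∈ Finset.range 6, (g^[k] ∘ mid) '' Icc 1 2 := by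
  ext m
  simp only [mem_iUnion, exists_prop, Finset.mem_range, mem_image, Function.comp]
  constructor
  · rintro ⟨k, d, h1, h2, rfl⟩
    refine ⟨k % 6, Nat.mod_lt _ (by norm_num), d, ⟨h1, h2⟩, ?_⟩
    have hp : Function.IsPeriodicPt g 6 (mid d) := g_iter6 _
    exact hp.iterate_mod_apply k
  · rintro ⟨k, _, d, ⟨h1, h2⟩, rfl⟩
    exact ⟨k, d, h1, h2, rfl⟩

lemma M_compact : IsCompact M := by
  rw [M_eq]
  refine (Finset.range 6).isCompact_biUnion fun k _ => ?_
  refine isCompact_Icc.image_of_continuousOn ?_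
  refine (g_cont.iterate k).comp_continuousOn ?_
  refine (PiLp.continuous_toLp 2 _).comp_continuousOn ?_
  refine continuousOn_pi.2 fun i => ?_
  fin_cases i
  · show ContinuousOn (fun d : ℝ => 1 - 1 / d) (Icc 1 2)
    refine continuousOn_const.sub (continuousOn_const.div continuousOn_id ?_)
    intro x hx
    exact (lt_of_lt_of_le one_pos hx.1).ne'
  · show ContinuousOn (fun d : ℝ => 1 - d / 2) (Icc 1 2)
    fun_prop

lemma M_hex {m : E 2} (h : m ∈ M) : m ∈ hex := by
  obtain ⟨k, d, h1, h2, rfl⟩ := h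
  induction k with
  | zero => exact mid_hex h1 h2
  | succ k ih =>
    rw [Function.iterate_succ_apply']
    exact (g_hex _).2 ih

lemma M_R {m : E 2} (h : m ∈ M) : ∃ u, R u m := by
  obtain ⟨k, d, h1, h2, rfl⟩ := h
  induction k with
  | zero => exact ⟨_, R_base h1 h2⟩
  | succ k ih =>
    obtain ⟨u, hu⟩ := ih
    rw [Function.iterate_succ_apply']
    exact ⟨_, R_g hu⟩

lemma cone_R {u : E 2} (hu : u ≠ 0) (h1 : u 0 ≤ 2 * u 1) (h2 : u 1 ≤ 2 * u 0) :
    ∃ m ∈ M, R u m := by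
  have hb : 0 < u 1 := by
    by_contra hc
    apply hu
    apply ext2 <;> simp only [PiLp.zero_apply] <;> linarith
  have ha : 0 < u 0 := by linarith
  set d := Real.sqrt (2 * u 0 / u 1) with hd
  have hd2 : d ^ 2 = 2 * u 0 / u 1 := Real.sq_sqrt (by positivity)
  have hd0 : 0 < d := Real.sqrt_pos.2 (by positivity)
  have e1 : 1 ≤ d := by
    rw [hd]
    apply Real.le_sqrt_of_sq_le
    rw [le_div_iff₀ hb]
    linarith
  have e2 : d ≤ 2 := by
    rw [hd]
    apply Real.sqrt_le_iff.2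
    refine ⟨by norm_num, ?_⟩
    rw [div_le_iff₀ hb]
    linarith
  refine ⟨mid d, ⟨0, d, e1, e2, rfl⟩, ?_⟩
  have h3 : u = (u 1 * d / 2) • (!₂[d, 2 / d] : E 2) := by
    apply ext2
    · show u 0 = (u 1 * d / 2) * d
      have : (u 1 * d / 2) * d = u 1 * d ^ 2 / 2 := by ring
      rw [this, hd2]
      field_simp
    · show u 1 = (u 1 * d / 2) * (2 / d)
      field_simp
  rw [h3]
  exact R_smul (by positivity) (R_base e1 e2)

noncomputable def gdi (u : E 2) : E 2 := !₂[u 1, u 1 - u 0]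

@[simp] lemma gdi0 (u : E 2) : gdi u 0 = u 1 := rfl
@[simp] lemma gdi1 (u : E 2) : gdi u 1 = u 1 - u 0 := rfl

lemma gd_gdi (u : E 2) : gd (gdi u) = u := by
  apply ext2 <;> simp

lemma gdi_ne {u : E 2} (hu : u ≠ 0) : gdi u ≠ 0 := by
  intro h
  apply hu
  rw [← gd_gdi u, h]
  apply ext2 <;> simp

lemma step {u : E 2} (h : ∃ m ∈ M, R (gdi u) m) : ∃ m ∈ M, R u m := by
  obtain ⟨m, hm, hR⟩ := h
  refine ⟨g m, M_g hm, ?_⟩
  have := R_g hR
  rwa [gd_gdi] at this

lemma all_R {u : E 2} (hu : u ≠ 0) : ∃ m ∈ M, R u m := by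
  have n1 := gdi_ne hu
  have n2 := gdi_ne n1
  have n3 := gdi_ne n2
  have n4 := gdi_ne n3
  have n5 := gdi_ne n4
  rcases le_total 0 (2 * u 1 - u 0) with hp | hp <;> rcases le_total 0 (2 * u 0 - u 1) with hq | hq
    <;> rcases le_total 0 (u 0 + u 1) with hr | hr
  · exact cone_R hu (by linarith) (by linarith)
  · exact cone_R hu (by linarith) (by linarith)
  · exact step (cone_R n1 (by simp; linarith) (by simp; linarith))
  · exact step (step (cone_R n2 (by simp; linarith) (by simp; linarith)))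
  · exact step (step (step (step (step (cone_R n5 (by simp; linarith) (by simp; linarith))))))
  · exact step (step (step (step (cone_R n4 (by simp; linarith) (by simp; linarith)))))
  · exact step (step (step (cone_R n3 (by simp; linarith) (by simp; linarith))))
  · exact step (step (step (cone_R n3 (by simp; linarith) (by simp; linarith))))

lemma half_closed (u : E 2) (t : ℝ) : IsClosed (halfSpace u t) :=
  isClosed_le continuous_const (by fun_prop)

lemma vol_fin {A : Set (E 2)} (hA : A ⊆ hex) : volume A ≠ ⊤ :=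
  ne_top_of_le_ne_top hex_compact.measure_lt_top.ne (measure_mono hA)

lemma hex_vol : 1 ≤ (volume hex).toReal := by
  have h1 : cd ⁻¹' (Icc (-1) 0 ×ˢ Icc 0 1) ⊆ hex := by
    intro x hx
    simp only [mem_preimage, cd_apply, mem_prod, mem_Icc] at hx
    obtain ⟨⟨h1, h2⟩, ⟨h3, h4⟩⟩ := hx
    simp only [hex, mem_ofPred_eq, abs_le]
    exact ⟨⟨by linarith, by linarith⟩, ⟨by linarith, by linarith⟩, ⟨by linarith, by linarith⟩⟩
  have h2 : (volume (cd ⁻¹' (Icc (-1) 0 ×ˢ Icc 0 1))).toReal = 1 := by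
    rw [cd_mp.measure_preimage_equiv, Measure.volume_eq_prod, Measure.prod_prod, Real.volume_Icc,
      Real.volume_Icc]
    norm_num
  rw [← h2]
  exact ENNReal.toReal_mono hex_compact.measure_lt_top.ne (measure_mono h1)

/-- the water level is unique -/
lemma uniq_lt {u : E 2} {t t' : ℝ} (hu : u ≠ 0)
    (h : (volume (hex ∩ halfSpace u t)).toReal = 1 / 2)
    (h' : (volume (hex ∩ halfSpace u t')).toReal = 1 / 2) : ¬ t < t' := by
  intro hlt
  have hcl : closure (interior hex) = hex := by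
    rw [hex_convex.closure_interior_eq_closure_of_nonempty_interior hex_interior,
      hex_closed.closure_eq]
  have hcont : Continuous fun x : E 2 => ⟪u, x⟫ := by fun_prop
  -- an interior point below `t`
  obtain ⟨y0, hy0, hy0t⟩ : ∃ y ∈ interior hex, ⟪u, y⟫ < t := by
    by_contra hc
    push Not at hc
    have : hex ⊆ halfSpace u t := by
      rw [← hcl]
      exact closure_minimal (fun y hy => hc y hy) (half_closed u t)
    rw [inter_eq_left.2 this] at h
    have := hex_vol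
    linarith
  -- an interior point above `t'`
  obtain ⟨y1, hy1, hy1t⟩ : ∃ y ∈ interior hex, t' ≤ ⟪u, y⟫ := by
    by_contra hc
    push Not at hc
    have hsub : hex ∩ halfSpace u t' ⊆ frontier hex := by
      rintro y ⟨hy, hy2⟩
      rw [frontier, mem_sdiff]
      refine ⟨subset_closure hy, fun hin => ?_⟩
      exact absurd (hc y hin) (not_lt.2 hy2)
    have h0 : volume (hex ∩ halfSpace u t') = 0 :=
      measure_mono_null hsub (hex_convex.addHaar_frontier volume)
    rw [h0] at h'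
    norm_num at h'
  -- a point strictly between
  obtain ⟨z, hz, hz1, hz2⟩ : ∃ z ∈ interior hex, t < ⟪u, z⟫ ∧ ⟪u, z⟫ < t' := by
    set φ : ℝ → E 2 := fun s => y0 + s • (y1 - y0) with hφ
    have hφc : Continuous fun s => ⟪u, φ s⟫ := by fun_prop
    have h0 : ⟪u, φ 0⟫ = ⟪u, y0⟫ := by simp [hφ]
    have h1 : ⟪u, φ 1⟫ = ⟪u, y1⟫ := by simp [hφ]
    obtain ⟨s, hs, hs2⟩ : (t + t') / 2 ∈ (fun s => ⟪u, φ s⟫) '' Icc 0 1 := by
      apply intermediate_value_Icc zero_le_one hφc.continuousOn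
      rw [h0, h1]
      exact ⟨by linarith, by linarith⟩
    simp only at hs2
    refine ⟨φ s, ?_, by rw [hs2]; linarith, by rw [hs2]; linarith⟩
    have := hex_convex.interior.add_smul_sub_mem hy0 hy1 hs
    exact this
  have hopen : IsOpen (interior hex ∩ {x | t < ⟪u, x⟫} ∩ {x | ⟪u, x⟫ < t'}) :=
    (isOpen_interior.inter (isOpen_lt continuous_const hcont)).inter
      (isOpen_lt hcont continuous_const)
  have hpos : 0 < volume (interior hex ∩ {x | t < ⟪u, x⟫} ∩ {x | ⟪u, x⟫ < t'}) :=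
    hopen.measure_pos volume ⟨z, ⟨hz, hz1⟩, hz2⟩
  have hle : volume (hex ∩ halfSpace u t') +
      volume (interior hex ∩ {x | t < ⟪u, x⟫} ∩ {x | ⟪u, x⟫ < t'}) ≤
      volume (hex ∩ halfSpace u t) := by
    rw [← measure_union _ hopen.measurableSet]
    · apply measure_mono
      rintro x (⟨h1, h2⟩ | ⟨⟨h1, h2⟩, h3⟩)
      · exact ⟨h1, hlt.le.trans h2⟩
      · have h2' : t < ⟪u, x⟫ := h2
        have h2'' : t ≤ ⟪u, x⟫ := h2'.le
        exact ⟨interior_subset h1, h2''⟩
    · rw [disjoint_left]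
      rintro x ⟨_, h2⟩ ⟨_, h4⟩
      have h2' : t' ≤ ⟪u, x⟫ := h2
      have h4' : ⟪u, x⟫ < t' := h4
      exact absurd h4' (not_lt.2 h2')
  have f1 := vol_fin (inter_subset_left (s := hex) (t := halfSpace u t))
  have f2 := vol_fin (inter_subset_left (s := hex) (t := halfSpace u t'))
  have heq : volume (hex ∩ halfSpace u t') = volume (hex ∩ halfSpace u t) := by
    rw [← ENNReal.ofReal_toReal f1, ← ENNReal.ofReal_toReal f2, h, h']
  rw [heq] at hle
  have : volume (interior hex ∩ {x | t < ⟪u, x⟫} ∩ {x | ⟪u, x⟫ < t'}) ≤ 0 := by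
    have h7 : volume (hex ∩ halfSpace u t) +
      volume (interior hex ∩ {x | t < ⟪u, x⟫} ∩ {x | ⟪u, x⟫ < t'}) ≤
      volume (hex ∩ halfSpace u t) + 0 := by rw [add_zero]; exact hle
    exact (ENNReal.add_le_add_iff_left f1).1 h7
  exact absurd hpos (not_lt.2 this)

lemma uniq {u : E 2} {t t' : ℝ} (hu : u ≠ 0)
    (h : (volume (hex ∩ halfSpace u t)).toReal = 1 / 2)
    (h' : (volume (hex ∩ halfSpace u t')).toReal = 1 / 2) : t = t' :=
  le_antisymm (not_lt.1 (uniq_lt hu h' h)) (not_lt.1 (uniq_lt hu h h'))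

/-- Among all parts of the body of a given volume the cap has its centroid farthest out. -/
lemma bathtub (u : E 2) (t : ℝ) (A : Set (E 2)) (hA : A ⊆ hex) (hAm : MeasurableSet A)
    (hv : (volume A).toReal = (volume (hex ∩ halfSpace u t)).toReal) :
    ∫ x in A, ⟪u, x⟫ ≤ ∫ x in hex ∩ halfSpace u t, ⟪u, x⟫ := by
  have hcont : Continuous fun x : E 2 => ⟪u, x⟫ - t := by fun_prop
  have hi : ∀ B ⊆ hex, IntegrableOn (fun x : E 2 => ⟪u, x⟫ - t) B := fun B hB =>
    (hcont.continuousOn.integrableOn_compact hex_compact).mono_set hB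
  have hi2 : ∀ B ⊆ hex, IntegrableOn (fun x : E 2 => ⟪u, x⟫) B := fun B hB =>
    ((by fun_prop : Continuous fun x : E 2 => ⟪u, x⟫).continuousOn.integrableOn_compact
      hex_compact).mono_set hB
  have hi3 : ∀ B ⊆ hex, IntegrableOn (fun _ : E 2 => t) B := fun B hB =>
    (continuous_const.continuousOn.integrableOn_compact hex_compact).mono_set hB
  have hm : MeasurableSet (hex ∩ halfSpace u t) :=
    hex_closed.measurableSet.inter (half_closed u t).measurableSet
  have key : ∫ x in A, (⟪u, x⟫ - t) ≤ ∫ x in hex ∩ halfSpace u t, (⟪u, x⟫ - t) := by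
    rw [← integral_indicator hAm, ← integral_indicator hm]
    refine integral_mono ((hi A hA).integrable_indicator hAm)
      ((hi _ inter_subset_left).integrable_indicator hm) ?_
    intro x
    by_cases hx : x ∈ hex ∩ halfSpace u t
    · rw [indicator_of_mem hx]
      by_cases hxA : x ∈ A
      · rw [indicator_of_mem hxA]
      · rw [indicator_of_notMem hxA]
        have : t ≤ ⟪u, x⟫ := hx.2
        linarith
    · rw [indicator_of_notMem hx]
      by_cases hxA : x ∈ A
      · rw [indicator_of_mem hxA]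
        have : ¬ t ≤ ⟪u, x⟫ := fun h => hx ⟨hA hxA, h⟩
        linarith
      · rw [indicator_of_notMem hxA]
  rw [integral_sub (hi2 A hA) (hi3 A hA), integral_sub (hi2 _ inter_subset_left)
    (hi3 _ inter_subset_left), setIntegral_const, setIntegral_const, Measure.real, Measure.real,
    hv] at key
  linarith

lemma inner_centroid (u v : E 2) (t : ℝ) (h : (volume (hex ∩ halfSpace v t)).toReal = 1 / 2) :
    ⟪u, centroid (hex ∩ halfSpace v t)⟫ = 2 * ∫ x in hex ∩ halfSpace v t, ⟪u, x⟫ := by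
  rw [centroid, h, inner_smul_right]
  have := (innerSL ℝ u).integral_comp_comm
    (integrableOn_id (inter_subset_left (s := hex) (t := halfSpace v t)))
  simp only [innerSL_apply_apply] at this
  rw [← this]
  norm_num

lemma R_le {u m u' m' : E 2} (h : R u m) (h' : R u' m') : ⟪u, m'⟫ ≤ ⟪u, m⟫ := by
  have h1 := bathtub u ⟪u, m⟫ (hex ∩ halfSpace u' ⟪u', m'⟫) inter_subset_left
    (hex_closed.measurableSet.inter (half_closed _ _).measurableSet) (by rw [h.2.1, h'.2.1])
  have h2 := inner_centroid u u ⟪u, m⟫ h.2.1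
  have h3 := inner_centroid u u' ⟪u', m'⟫ h'.2.1
  rw [h.2.2, inner_smul_right] at h2
  rw [h'.2.2, inner_smul_right] at h3
  linarith

/-- A half-space cutting off volume `1/2` has its water line through the midpoint. -/
lemma adm {u : E 2} {t : ℝ} (hu : u ≠ 0) (h : (volume (hex ∩ halfSpace u t)).toReal = 1 / 2) :
    ∃ m ∈ M, R u m ∧ t = ⟪u, m⟫ := by
  obtain ⟨m, hm, hR⟩ := all_R hu
  exact ⟨m, hm, hR, uniq hu h hR.2.1⟩

lemma closure_diff_subset (u : E 2) (t : ℝ) :
    closure (hex \ halfSpace u t) ⊆ hex ∩ {x | ⟪u, x⟫ ≤ t} := by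
  refine closure_minimal ?_ (hex_closed.inter (isClosed_le (by fun_prop) continuous_const))
  rintro x ⟨h1, h2⟩
  have h2' : ¬ t ≤ ⟪u, x⟫ := h2
  have h3 : ⟪u, x⟫ ≤ t := le_of_lt (not_le.1 h2')
  exact ⟨h1, h3⟩

lemma subset_closure_diff {u : E 2} {t : ℝ}
    (h : (volume (hex ∩ halfSpace u t)).toReal = 1 / 2) :
    hex ∩ {x | ⟪u, x⟫ ≤ t} ⊆ closure (hex \ halfSpace u t) := by
  obtain ⟨y, hy, hyt⟩ : ∃ y ∈ hex, ⟪u, y⟫ < t := by
    by_contra hc
    push Not at hc
    have : hex ⊆ halfSpace u t := fun y hy => hc y hy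
    rw [inter_eq_left.2 this] at h
    have := hex_vol
    linarith
  rintro x ⟨hx, hxt⟩
  have hxt : ⟪u, x⟫ ≤ t := hxt
  rw [mem_closure_iff_seq_limit]
  refine ⟨fun n : ℕ => x + ((1 : ℝ) / (n + 1)) • (y - x), ?_, ?_⟩
  · intro n
    have hn : (0:ℝ) < 1 / ((n:ℝ) + 1) := by positivity
    have hn1 : 1 / ((n:ℝ) + 1) ≤ 1 := by
      rw [div_le_one (by positivity)]
      have : (0:ℝ) ≤ n := Nat.cast_nonneg n
      linarith
    refine ⟨hex_convex.add_smul_sub_mem hx hy ⟨hn.le, hn1⟩, ?_⟩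
    simp only [halfSpace, mem_ofPred_eq, not_le, inner_add_right, inner_smul_right,
      inner_sub_right]
    nlinarith
  · have : Filter.Tendsto (fun n : ℕ => x + ((1 : ℝ) / (n + 1)) • (y - x)) Filter.atTop
        (nhds (x + (0:ℝ) • (y - x))) :=
      tendsto_const_nhds.add (tendsto_one_div_add_atTop_nhds_zero_nat.smul_const (y - x))
    simpa using this

/-- The set of all centroids of admissible caps. -/
lemma centroids : {c : E 2 | ∃ (u : E 2) (t : ℝ), (u ≠ 0 ∧
    (volume (hex ∩ halfSpace u t)).toReal = 1 / 2) ∧ c = centroid (hex ∩ halfSpace u t)} =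
    (fun m : E 2 => (4 / 3 : ℝ) • m) '' M := by
  ext c
  constructor
  · rintro ⟨u, t, ⟨hu, h⟩, rfl⟩
    obtain ⟨m, hm, hR, rfl⟩ := adm hu h
    exact ⟨m, hm, hR.2.2.symm⟩
  · rintro ⟨m, hm, rfl⟩
    obtain ⟨u, hR⟩ := M_R hm
    exact ⟨u, ⟪u, m⟫, ⟨hR.1, hR.2.1⟩, hR.2.2.symm⟩

theorem flotation_eq :
    {x : E 2 | ∀ (u : E 2) (t : ℝ), (u ≠ 0 ∧ (volume (hex ∩ halfSpace u t)).toReal = 1 / 2) →
      x ∈ closure (hex \ halfSpace u t)} =
    (fun y : E 2 => (3 / 4 : ℝ) • y) '' convexHull ℝ {c : E 2 | ∃ (u : E 2) (t : ℝ), (u ≠ 0 ∧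
    (volume (hex ∩ halfSpace u t)).toReal = 1 / 2) ∧ c = centroid (hex ∩ halfSpace u t)} := by
  rw [centroids]
  have hcomp : IsCompact (convexHull ℝ ((fun m : E 2 => (4 / 3 : ℝ) • m) '' M)) :=
    Pool.Agent.H73R3.compact_hull (M_compact.image (by fun_prop))
  apply Subset.antisymm
  · intro x hx
    refine ⟨(4 / 3 : ℝ) • x, ?_, by simp only [smul_smul]; norm_num⟩
    by_contra hn
    obtain ⟨f, s, hf1, hf2⟩ := geometric_hahn_banach_closed_point
      (convex_convexHull ℝ _) hcomp.isClosed hn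
    set u := (InnerProductSpace.toDual ℝ (E 2)).symm f with hu
    have hfu : ∀ z, f z = ⟪u, z⟫ := by
      intro z
      rw [hu, InnerProductSpace.toDual_symm_apply]
    have hu0 : u ≠ 0 := by
      intro h0
      have h1 : ∀ z, f z = 0 := fun z => by rw [hfu, h0, inner_zero_left]
      obtain ⟨m, hm, -⟩ := all_R (u := (!₂[1, 0] : E 2)) (by
        intro h
        have : (!₂[1, 0] : E 2) 0 = 0 := by rw [h]; rfl
        have h5 : (1:ℝ) = 0 := this
        norm_num at h5)
      have h2 := hf1 _ (subset_convexHull ℝ _ (mem_image_of_mem _ hm))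
      rw [h1] at h2 hf2
      linarith
    obtain ⟨m, hm, hR⟩ := all_R hu0
    have h1 := hf1 _ (subset_convexHull ℝ _ (mem_image_of_mem _ hm))
    have h2 := (closure_diff_subset u _ (hx u ⟪u, m⟫ ⟨hu0, hR.2.1⟩)).2
    simp only [mem_ofPred_eq] at h2
    rw [hfu, inner_smul_right] at h1 hf2
    linarith
  · rintro _ ⟨y, hy, rfl⟩
    intro u t ⟨hu, h⟩
    obtain ⟨m, hm, hR, rfl⟩ := adm hu h
    apply subset_closure_diff h
    -- the target set is convex and contains all midpoints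
    have hconv : Convex ℝ (hex ∩ {x | ⟪u, x⟫ ≤ ⟪u, m⟫}) := by
      refine hex_convex.inter ?_
      exact convex_halfSpace_le (innerSL ℝ u).isBoundedLinearMap.toIsLinearMap _
    have hconv2 : Convex ℝ ((fun y : E 2 => (3 / 4 : ℝ) • y) ⁻¹'
        (hex ∩ {x | ⟪u, x⟫ ≤ ⟪u, m⟫})) := by
      exact hconv.linear_preimage ((3 / 4 : ℝ) • (LinearMap.id : E 2 →ₗ[ℝ] E 2))
    have hsub : (fun m : E 2 => (4 / 3 : ℝ) • m) '' M ⊆ (fun y : E 2 => (3 / 4 : ℝ) • y) ⁻¹'
        (hex ∩ {x | ⟪u, x⟫ ≤ ⟪u, m⟫}) := by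
      rintro _ ⟨m', hm', rfl⟩
      obtain ⟨u', hR'⟩ := M_R hm'
      simp only [mem_preimage, smul_smul]
      norm_num
      exact ⟨M_hex hm', R_le hR hR'⟩
    exact convexHull_min hsub hconv2 hy

end Pool.Agent.R756.Flot
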